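import Mathlib

/-! Group trisections: surface groups with one boundary component and handlebody maps. -/

namespace Pool.Agent.Y524

/-- The free group on `a_i = (i, false)`, `b_i = (i, true)`, `i < g`: the fundamental group of the
compact oriented genus `g` surface with one boundary component. -/
abbrev Fg (g : ℕ) := FreeGroup (Fin g × Bool)

/-- The boundary word `[a_0,b_0][a_1,b_1]⋯[a_{g-1},b_{g-1}]`. -/
def bd (g : ℕ) : Fg g :=
  (List.ofFn fun i : Fin g => FreeGroup.of (i, false) * FreeGroup.of (i, true) *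
    (FreeGroup.of (i, false))⁻¹ * (FreeGroup.of (i, true))⁻¹).prod

/-- A balanced `(g,k)` group trisection. -/
structure Trisection where
  g : ℕ
  k : ℕ
  φ : Fin 3 → (Fg g →* FreeGroup (Fin g))
  surj : ∀ i, Function.Surjective (φ i)
  closed : ∀ i, φ i (bd g) = 1
  sector : ∀ i j, i ≠ j → Nonempty ((Fg g ⧸ ((φ i).ker ⊔ (φ j).ker)) ≃* FreeGroup (Fin k))

/-- Values of the stabilized handlebody maps on generators. -/
def Trisection.stabFun (T : Trisection) (i : Fin 3) (x : Fin (T.g + 3) × Bool) :
    FreeGroup (Fin (T.g + 3)) :=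
  Fin.addCases (fun j => FreeGroup.map (Fin.castAdd 3) (T.φ i (FreeGroup.of (j, x.2))))
    (fun r => if (x.2 = false ↔ r = i) then 1 else FreeGroup.of (Fin.natAdd T.g r)) x.1

end Pool.Agent.Y524
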