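import Pool.Agent.Y524D.Lemmas

/-! Group trisections: stabilization, isomorphism, minimality. -/

namespace Pool.Agent.Y524

namespace Trisection

/-- Stabilization: connected sum with the standard genus three trisection of the 4-sphere. -/
def stab (T : Trisection) : Trisection where
  g := T.g + 3
  k := T.k + 1
  φ i := FreeGroup.lift (T.stabFun i)
  surj := T.stab_surj
  closed := T.stab_closed
  sector := T.stab_sector

/-- Orientation-preserving isomorphism of group trisections. -/
def Iso (T T' : Trisection) : Prop :=
  ∃ f : Fg T.g ≃* Fg T'.g, f (bd T.g) = bd T'.g ∧ ∀ i x, T'.φ i (f x) = 1 ↔ T.φ i x = 1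

/-- Two group trisections describe the same closed 4-manifold iff they are stably isomorphic. -/
def SameManifold (T T' : Trisection) : Prop := ∃ m n : ℕ, Iso (stab^[m] T) (stab^[n] T')

/-- Minimal genus among all balanced trisections of the same 4-manifold. -/
def Minimal (T : Trisection) : Prop := ∀ T', SameManifold T T' → T.g ≤ T'.g

/-- `T` is not a stabilization of anything, up to arbitrary isomorphisms of the closed surface
groups and arbitrary relabelling of the three handlebodies. -/
def NotStab (T : Trisection) : Prop :=
  ∀ (U : Trisection) (σ : Equiv.Perm (Fin 3))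
    (e : (Fg U.stab.g ⧸ Subgroup.normalClosure {bd U.stab.g}) ≃*
      (Fg T.g ⧸ Subgroup.normalClosure {bd T.g})),
    ¬ ∀ i (x : Fg U.stab.g) (y : Fg T.g), e (x : Fg U.stab.g ⧸ Subgroup.normalClosure {bd U.stab.g}) = (y : Fg T.g ⧸ Subgroup.normalClosure {bd T.g}) →
      (U.stab.φ i x = 1 ↔ T.φ (σ i) y = 1)

end Trisection

end Pool.Agent.Y524
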